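import Mathlib
import Pool.Agent.R203.SC.Point

/-!
Minimal representations of rational numbers with denominators dividing `b p ^ i q ^ j`.
-/

set_option autoImplicit false
open Finset

namespace Pool.Agent.N254.UD

open Pool.Agent.R203.SC

/-- the part of `b` which is not coprime to `p` divides a small power of `p` -/
lemma split_part {p : ℕ} (hp : 2 ≤ p) : ∀ b : ℕ, 1 ≤ b → ∃ k c : ℕ, k ≤ Nat.log 2 b ∧
    b ∣ p ^ k * c ∧ Nat.Coprime p c := by
  intro b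
  induction b using Nat.strong_induction_on with
  | _ b ih =>
    intro hb
    by_cases hc : Nat.Coprime p b
    · exact ⟨0, b, Nat.zero_le _, by simp, hc⟩
    · set g := Nat.gcd p b with hg
      have hg0 : 0 < g := Nat.gcd_pos_of_pos_left _ (by omega)
      have hg2 : 2 ≤ g := by
        have : g ≠ 1 := hc
        omega
      obtain ⟨b', hb'⟩ : g ∣ b := Nat.gcd_dvd_right p b
      have hb'0 : 1 ≤ b' := by
        rcases Nat.eq_zero_or_pos b' with h | h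
        · rw [h] at hb'; omega
        · exact h
      have hlt : b' < b := by
        rw [hb']; nlinarith
      obtain ⟨k, c, h1, h2, h3⟩ := ih b' hlt hb'0
      refine ⟨k + 1, c, ?_, ?_, h3⟩
      · have h4 : 2 ^ (k + 1) ≤ b := by
          have h5 : 2 ^ k ≤ b' := Nat.pow_le_of_le_log (by omega) h1
          rw [hb', pow_succ]
          nlinarith
        exact Nat.le_log_of_pow_le (by norm_num) h4
      · rw [hb', pow_succ]
        have h5 : g ∣ p := Nat.gcd_dvd_left p b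
        calc g * b' ∣ p * (p ^ k * c) := Nat.mul_dvd_mul h5 h2
          _ = p ^ k * p * c := by ring

/-- one factor -/
lemma side {p q : ℕ} (hp : 2 ≤ p) (hpq : Nat.Coprime p q) {δ m n b i j : ℕ} (hb : 1 ≤ b)
    (h1 : δ ∣ p ^ m * q ^ n) (h2 : δ ∣ b * (p ^ i * q ^ j)) :
    δ ∣ p ^ (i + Nat.log 2 b) * q ^ n := by
  obtain ⟨k, c, hk, hd, hc⟩ := split_part hp b hb
  rcases le_total m (i + Nat.log 2 b) with h | h
  · refine h1.trans (Nat.mul_dvd_mul ?_ dvd_rfl)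
    exact Nat.pow_dvd_pow p h
  · have h3 : δ ∣ p ^ (i + k) * (c * q ^ j) := by
      refine h2.trans ?_
      calc b * (p ^ i * q ^ j) ∣ (p ^ k * c) * (p ^ i * q ^ j) := Nat.mul_dvd_mul hd dvd_rfl
        _ = p ^ (i + k) * (c * q ^ j) := by rw [pow_add]; ring
    have h4 : i + k ≤ m := by omega
    have h5 : p ^ m * q ^ n = p ^ (i + k) * (p ^ (m - (i + k)) * q ^ n) := by
      rw [← mul_assoc, ← pow_add, Nat.add_sub_cancel' h4]
    rw [h5] at h1
    have h6 := Nat.dvd_gcd h1 h3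
    rw [Nat.gcd_mul_left] at h6
    have h7 : Nat.gcd (p ^ (m - (i + k)) * q ^ n) (c * q ^ j) ∣ q ^ n := by
      have h8 : Nat.Coprime (Nat.gcd (p ^ (m - (i + k)) * q ^ n) (c * q ^ j)) (p ^ (m - (i + k))) := by
        apply Nat.Coprime.coprime_dvd_left (Nat.gcd_dvd_right _ _)
        apply Nat.Coprime.pow_right
        exact Nat.Coprime.mul_left hc.symm (Nat.Coprime.pow_left _ hpq.symm)
      exact h8.dvd_of_dvd_mul_left (Nat.gcd_dvd_left _ _)
    have h9 : δ ∣ p ^ (i + k) * q ^ n := h6.trans (Nat.mul_dvd_mul dvd_rfl h7)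
    exact h9.trans (Nat.mul_dvd_mul (Nat.pow_dvd_pow p (by omega)) dvd_rfl)

/-- minimal representation, with an extra factor `b` -/
lemma minrepB {p q : ℕ} (hp : 2 ≤ p) (hq : 2 ≤ q) (hpq : Nat.Coprime p q) (ρ : ℚ)
    (h : ∃ i j : ℕ, ∃ b : ℤ, ((p ^ i * q ^ j : ℕ) : ℚ) * ρ = b) :
    ∃ (m n : ℕ) (a : ℤ), (m = 0 ∨ ¬ (p : ℤ) ∣ a) ∧ ρ = (a : ℚ) / ((p : ℚ) ^ m * (q : ℚ) ^ n) ∧
      (∀ (i j : ℕ) (b : ℤ), ((p ^ i * q ^ j : ℕ) : ℚ) * ρ = b → m ≤ i ∧ n ≤ j) ∧
      ∀ (b i j : ℕ) (c : ℤ), 1 ≤ b → ((b * (p ^ i * q ^ j) : ℕ) : ℚ) * ρ = c →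
        m ≤ i + Nat.log 2 b ∧ n ≤ j + Nat.log 2 b := by
  obtain ⟨m, n, a, ha, hρ, hmin⟩ := minrep hp hq hpq ρ h
  refine ⟨m, n, a, ha, hρ, hmin, ?_⟩
  intro b i j c hb hc
  have hd1 : ρ.den ∣ p ^ m * q ^ n := by
    apply den_dvd_of_mul (b := a) (by positivity)
    rw [hρ]
    push_cast
    have : (p : ℚ) ^ m * (q : ℚ) ^ n ≠ 0 := by positivity
    field_simp
  have hd2 : ρ.den ∣ b * (p ^ i * q ^ j) := den_dvd_of_mul (by positivity) hc
  have h1 := side hp hpq hb hd1 hd2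
  have h2 : ρ.den ∣ q ^ (j + Nat.log 2 b) * p ^ m := by
    apply side hq hpq.symm hb (m := n) (n := m) (i := j) (j := i)
    · rw [mul_comm]; exact hd1
    · rw [mul_comm (q ^ j)]; exact hd2
  obtain ⟨a1, ha1⟩ := mul_int_of_den_dvd h1
  obtain ⟨a2, ha2⟩ := mul_int_of_den_dvd (h2.trans (dvd_of_eq (mul_comm _ _)))
  exact ⟨(hmin _ _ a1 ha1).1, (hmin _ _ a2 ha2).2⟩

end Pool.Agent.N254.UD
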