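import Mathlib
import Pool.Agent.N254.UD.Rep

/-!
Pointwise bound for the number of cells `(i, j)` in a window for which `p ^ i q ^ j x` is
exponentially close, but not too close, to a rational number with a small denominator.
-/

set_option autoImplicit false
open Finset

namespace Pool.Agent.N254.UD

open Pool.Agent.R203.SC Pool.Agent.TH461.SST

/-- the cells `(i, j)` of the window of size `N` with `a ≤ ‖d p ^ i q ^ j x‖ ≤ b` for some
`1 ≤ d ≤ e ^ H` -/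
def cellsB (p q : ℕ) (N H a b : ℝ) (x : UnitAddCircle) : Set (ℕ × ℕ) :=
  {u | (u.1 : ℝ) * Real.log p + (u.2 : ℝ) * Real.log q ≤ N ∧ ∃ d : ℕ, 1 ≤ d ∧
    (d : ℝ) ≤ Real.exp H ∧ a ≤ ‖d • ((p ^ u.1 * q ^ u.2) • x)‖ ∧
    ‖d • ((p ^ u.1 * q ^ u.2) • x)‖ ≤ b}

lemma cellsB_finite {p q : ℕ} (hp : 2 ≤ p) (hq : 2 ≤ q) (N H a b : ℝ) (x : UnitAddCircle) :
    (cellsB p q N H a b x).Finite := by
  have hlp : 0 < Real.log p := Real.log_pos (by exact_mod_cast (by omega : 1 < p))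
  have hlq : 0 < Real.log q := Real.log_pos (by exact_mod_cast (by omega : 1 < q))
  refine ((Finset.range (⌊N / Real.log p⌋₊ + 1) ×ˢ
    Finset.range (⌊N / Real.log q⌋₊ + 1)).finite_toSet).subset fun u hu => ?_
  obtain ⟨h1, -⟩ := hu
  have h2 : 0 ≤ (u.1 : ℝ) * Real.log p := by positivity
  have h3 : 0 ≤ (u.2 : ℝ) * Real.log q := by positivity
  simp only [Finset.coe_product, Finset.coe_range, Set.mem_prod, Set.mem_Iio]
  constructor
  · apply Nat.lt_succ_of_le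
    apply Nat.le_floor
    rw [le_div_iff₀ hlp]; linarith
  · apply Nat.lt_succ_of_le
    apply Nat.le_floor
    rw [le_div_iff₀ hlq]; linarith

/-- The cluster inequality with a common extra denominator `B`. -/
lemma clusterB {p q : ℕ} (hp : 2 ≤ p) (hq : 2 ≤ q) (hpq : Nat.Coprime p q)
    (hcl : ClusterStmt p q) {κ : ℝ} (hκ : 0 < κ) :
    ∃ N0 : ℝ, ∀ M : ℝ, N0 ≤ M → 0 < M → ∀ θ : ℝ, ∀ (R : Finset ℚ) (B : ℕ) (h : ℚ → ℝ)
      (i j : ℚ → ℕ), 1 ≤ B →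
      (∀ ρ ∈ R, ∃ c : ℤ, ((B * (p ^ (i ρ) * q ^ (j ρ)) : ℕ) : ℚ) * ρ = c) →
      (∀ ρ ∈ R, h ρ ≤ M) →
      (∀ ρ ∈ R, |θ - (ρ : ℝ)| ≤ Real.exp (-(h ρ))) →
      (∀ ρ ∈ R, (i ρ : ℝ) * Real.log p + (j ρ : ℝ) * Real.log q + Real.log B + κ * M ≤ h ρ) →
      ∃ m n : ℚ → ℕ,
        (∀ ρ ∈ R, ∀ (b i j : ℕ) (c : ℤ), 1 ≤ b → ((b * (p ^ i * q ^ j) : ℕ) : ℚ) * ρ = c →
          m ρ ≤ i + Nat.log 2 b ∧ n ρ ≤ j + Nat.log 2 b) ∧
        (∀ ρ ∈ R, m ρ ≤ i ρ ∧ n ρ ≤ j ρ) ∧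
        ∑ ρ ∈ R, (h ρ - Real.log B - (m ρ : ℝ) * Real.log p - (n ρ : ℝ) * Real.log q) ≤ 2 * M := by
  classical
  obtain ⟨N0, hN0⟩ := cluster_finset hcl hκ
  refine ⟨N0, fun M hM hM0 θ R B h i j hB hint hh hd hs => ?_⟩
  have hBR : (0 : ℝ) < B := by exact_mod_cast hB
  have hBQ : (0 : ℚ) < B := by exact_mod_cast hB
  set t : ℤ := ⌊(B : ℝ) * θ⌋ - 1 with ht
  set θ' : ℝ := (B : ℝ) * θ - t with hθ'
  have hθ1 : 1 ≤ θ' := by
    have := Int.floor_le ((B : ℝ) * θ)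
    rw [hθ', ht]; push_cast; linarith
  have hθ2 : θ' < 2 := by
    have := Int.lt_floor_add_one ((B : ℝ) * θ)
    rw [hθ', ht]; push_cast; linarith
  set ψ : ℚ → ℚ := fun ρ => (B : ℚ) * ρ - t with hψ
  have hψi : Function.Injective ψ := by
    intro a b hab
    simp only [hψ] at hab
    have h1 : (B : ℚ) * a = (B : ℚ) * b := by linarith
    exact mul_left_cancel₀ hBQ.ne' h1
  have hmin := fun ρ : ℚ => minrepB hp hq hpq ρ
  choose! m n a hma hρ hle1 hle2 using hmin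
  have hex : ∀ ρ ∈ R, ∃ i j : ℕ, ∃ b : ℤ, ((p ^ i * q ^ j : ℕ) : ℚ) * ψ ρ = b := by
    intro ρ hρR
    obtain ⟨c, hc⟩ := hint ρ hρR
    refine ⟨i ρ, j ρ, c - (p ^ (i ρ) * q ^ (j ρ) : ℕ) * t, ?_⟩
    simp only [hψ]
    push_cast at hc ⊢
    rw [← hc]; ring
  have hle3 : ∀ ρ ∈ R, m (ψ ρ) ≤ i ρ ∧ n (ψ ρ) ≤ j ρ := by
    intro ρ hρR
    obtain ⟨c, hc⟩ := hint ρ hρR
    refine hle1 (ψ ρ) (hex ρ hρR) (i ρ) (j ρ) (c - (p ^ (i ρ) * q ^ (j ρ) : ℕ) * t) ?_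
    simp only [hψ]
    push_cast at hc ⊢
    rw [← hc]; ring
  have hBlog : 0 ≤ Real.log B := Real.log_nonneg (by exact_mod_cast hB)
  -- the level function on the image
  set φ : ℚ → ℚ := fun σ => (σ + t) / B with hφ
  have hφψ : ∀ ρ, φ (ψ ρ) = ρ := by
    intro ρ
    simp only [hφ, hψ]
    field_simp
    ring
  set h' : ℚ → ℝ := fun σ => h (φ σ) - Real.log B with hh'
  have hlp : 0 < Real.log p := Real.log_pos (by exact_mod_cast (by omega : 1 < p))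
  have hlq : 0 < Real.log q := Real.log_pos (by exact_mod_cast (by omega : 1 < q))
  have key := hN0 M hM hM0 θ' hθ1 hθ2 (R.image ψ) a m n h'
    (by
      intro σ hσ
      obtain ⟨ρ, hρR, rfl⟩ := Finset.mem_image.1 hσ
      exact hma _ (hex ρ hρR))
    (by
      intro σ hσ
      obtain ⟨ρ, hρR, rfl⟩ := Finset.mem_image.1 hσ
      exact hρ _ (hex ρ hρR))
    (by
      intro σ hσ
      obtain ⟨ρ, hρR, rfl⟩ := Finset.mem_image.1 hσ
      simp only [hh', hφψ]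
      have := hh ρ hρR
      linarith)
    (by
      intro σ hσ
      obtain ⟨ρ, hρR, rfl⟩ := Finset.mem_image.1 hσ
      simp only [hh', hφψ]
      have h1 : θ' - ((ψ ρ : ℚ) : ℝ) = (B : ℝ) * (θ - (ρ : ℝ)) := by
        rw [hθ', hψ]; push_cast; ring
      have e : Real.exp (-(h ρ - Real.log B)) = B * Real.exp (-(h ρ)) := by
        rw [show -(h ρ - Real.log B) = Real.log B + -(h ρ) by ring, Real.exp_add,
          Real.exp_log hBR]
      rw [h1, abs_mul, abs_of_pos hBR, e]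
      exact mul_le_mul_of_nonneg_left (hd ρ hρR) hBR.le)
    (by
      intro σ hσ
      obtain ⟨ρ, hρR, rfl⟩ := Finset.mem_image.1 hσ
      simp only [hh', hφψ]
      have h1 := hs ρ hρR
      obtain ⟨h2, h3⟩ := hle3 ρ hρR
      have h4 : (m (ψ ρ) : ℝ) * Real.log p ≤ (i ρ : ℝ) * Real.log p :=
        mul_le_mul_of_nonneg_right (by exact_mod_cast h2) hlp.le
      have h5 : (n (ψ ρ) : ℝ) * Real.log q ≤ (j ρ : ℝ) * Real.log q :=
        mul_le_mul_of_nonneg_right (by exact_mod_cast h3) hlq.le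
      linarith)
  rw [Finset.sum_image (fun a _ b _ hab => hψi hab)] at key
  refine ⟨fun ρ => m (ψ ρ), fun ρ => n (ψ ρ), ?_, hle3, ?_⟩
  · intro ρ hρR b i1 j1 c hb hc
    refine hle2 (ψ ρ) (hex ρ hρR) b i1 j1 (B * c - (b * (p ^ i1 * q ^ j1) : ℕ) * t) hb ?_
    simp only [hψ]
    push_cast at hc ⊢
    rw [← hc]; ring
  · refine le_trans (le_of_eq ?_) key
    refine Finset.sum_congr rfl fun ρ _ => ?_
    simp only [hh', hφψ]

lemma natlog_le {d : ℕ} (hd : 1 ≤ d) {H : ℝ} (h : (d : ℝ) ≤ Real.exp H) :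
    Nat.log 2 d ≤ ⌊H / Real.log 2⌋₊ := by
  have h2 : 0 < Real.log 2 := Real.log_pos (by norm_num)
  apply Nat.le_floor
  rw [le_div_iff₀ h2]
  have h1 : 2 ^ (Nat.log 2 d) ≤ d := Nat.pow_log_le_self 2 (by omega)
  have h3 : ((2 : ℝ) ^ (Nat.log 2 d)) ≤ d := by exact_mod_cast h1
  have h4 := Real.log_le_log (by positivity) (h3.trans h)
  rwa [Real.log_pow, Real.log_exp] at h4

end Pool.Agent.N254.UD
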