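import Mathlib
import Pool.Agent.N254.UD.Point

/-!
The pointwise bound for all small denominators at once.
-/

set_option autoImplicit false
open Finset

namespace Pool.Agent.N254.UD

open Pool.Agent.R203.SC Pool.Agent.TH461.SST

/-- **The pointwise bound.** -/
theorem pointB {p q : ℕ} (hp : 2 ≤ p) (hq : 2 ≤ q) (hpq : Nat.Coprime p q)
    (hcl : ClusterStmt p q) : ∃ C c : ℝ, 0 < C ∧ 0 < c ∧ ∀ A κ : ℝ, 1 ≤ A → 0 < κ →
      ∃ N₀ : ℝ, ∀ N : ℝ, N₀ ≤ N → ∀ x : UnitAddCircle,
        ((cellsB p q N (c * κ ^ 2 * N) (Real.exp (-(A * κ * N))) (Real.exp (-(κ * N))) x).ncard :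
          ℝ) ≤ C * A * κ * N ^ 2 := by
  classical
  have hlp : 0 < Real.log p := Real.log_pos (by exact_mod_cast (by omega : 1 < p))
  have hlq : 0 < Real.log q := Real.log_pos (by exact_mod_cast (by omega : 1 < q))
  have hl2 : 0 < Real.log 2 := Real.log_pos (by norm_num)
  set lp := Real.log p with hlpdef
  set lq := Real.log q with hlqdef
  set P : ℝ := 1 + 1 / lp with hP
  set Q : ℝ := 1 + 1 / lq with hQ
  have hP0 : 0 < P := by positivity
  have hQ0 : 0 < Q := by positivity
  set c : ℝ := min (1 / 56) (Real.log 2 / (4 * (lp + lq))) with hc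
  have hc0 : 0 < c := lt_min (by norm_num) (by positivity)
  have hc1 : c ≤ 1 / 56 := min_le_left _ _
  have hc2 : c * (lp + lq) / Real.log 2 ≤ 1 / 4 := by
    have h1 : c ≤ Real.log 2 / (4 * (lp + lq)) := min_le_right _ _
    rw [le_div_iff₀ (by positivity)] at h1
    rw [div_le_iff₀ hl2]
    linarith
  refine ⟨12 * P * Q, c, by positivity, hc0, fun A κ hA hκ => ?_⟩
  by_cases hAκ : A * κ ≤ 1
  swap
  · -- trivial case
    push Not at hAκ
    refine ⟨1, fun N hN x => ?_⟩
    have hN0 : 0 < N := by linarith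
    set S := cellsB p q N (c * κ ^ 2 * N) (Real.exp (-(A * κ * N))) (Real.exp (-(κ * N))) x with hS
    have h1 : (S.ncard : ℝ) ≤ (N / lp + 1) * (N / lq + 1) := by
      have hf : S.Finite := cellsB_finite hp hq _ _ _ _ _
      rw [Set.ncard_eq_toFinset_card _ hf]
      have := card_strip hf.toFinset hlp hlq (α := 0) (β := N) hN0.le hN0.le 0 (by
        intro u hu
        rw [Set.Finite.mem_toFinset] at hu
        have hu1 : (u.1 : ℝ) * lp + (u.2 : ℝ) * lq ≤ N := hu.1
        have h2 : 0 ≤ (u.1 : ℝ) * lp := by positivity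
        have h3 : 0 ≤ (u.2 : ℝ) * lq := by positivity
        refine ⟨Nat.zero_le _, ?_, by linarith, hu1⟩
        push_cast; linarith)
      rwa [sub_zero] at this
    refine h1.trans ?_
    have h2 : N / lp + 1 ≤ P * N := by
      rw [hP, add_mul, one_mul, div_mul_eq_mul_div, one_mul]; linarith
    have h3 : N / lq + 1 ≤ Q * N := by
      rw [hQ, add_mul, one_mul, div_mul_eq_mul_div, one_mul]; linarith
    have h4 : 0 ≤ N / lq + 1 := by positivity
    calc (N / lp + 1) * (N / lq + 1) ≤ (P * N) * (Q * N) :=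
          mul_le_mul h2 h3 h4 (by positivity)
      _ = 1 * (P * Q * N ^ 2) := by ring
      _ ≤ (12 * (A * κ)) * (P * Q * N ^ 2) := by
          apply mul_le_mul_of_nonneg_right _ (by positivity)
          linarith
      _ = 12 * P * Q * A * κ * N ^ 2 := by ring
  · have hκ1 : κ ≤ 1 := by nlinarith
    set η : ℝ := c * κ ^ 2 with hη
    have hη0 : 0 < η := by positivity
    have hηκ : η ≤ κ / 56 := by
      rw [hη]
      have : κ ^ 2 ≤ κ := by nlinarith
      nlinarith
    obtain ⟨N0, hN0⟩ := clusterB hp hq hpq hcl (κ := κ / 6) (by linarith)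
    refine ⟨max (|N0|) (1 / κ), fun N hN x => ?_⟩
    have hNκ : 1 / κ ≤ N := (le_max_right _ _).trans hN
    have hNpos : 0 < N := lt_of_lt_of_le (by positivity) hNκ
    have hκN : 1 ≤ κ * N := by
      rw [div_le_iff₀ hκ] at hNκ; linarith
    obtain ⟨θ, hθ1, hθ2, rfl⟩ := exists_theta x
    set S := cellsB p q N (η * N) (Real.exp (-(A * κ * N))) (Real.exp (-(κ * N)))
      (θ : UnitAddCircle) with hS
    have hSf : S.Finite := cellsB_finite hp hq _ _ _ _ _
    set F := hSf.toFinset with hF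
    have hmem0 : ∀ u ∈ F, (u.1 : ℝ) * lp + (u.2 : ℝ) * lq ≤ N ∧ ∃ d : ℕ, 1 ≤ d ∧
        (d : ℝ) ≤ Real.exp (η * N) ∧
        Real.exp (-(A * κ * N)) ≤ ‖d • ((p ^ u.1 * q ^ u.2) • (θ : UnitAddCircle))‖ ∧
        ‖d • ((p ^ u.1 * q ^ u.2) • (θ : UnitAddCircle))‖ ≤ Real.exp (-(κ * N)) := by
      intro u hu
      rw [hF, Set.Finite.mem_toFinset] at hu
      exact hu
    choose! d' hd' using fun u hu => (hmem0 u hu).2
    -- the denominators (1 outside F)
    set d : ℕ × ℕ → ℕ := fun u => max 1 (d' u) with hd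
    have hd1 : ∀ u, 1 ≤ d u := fun u => le_max_left _ _
    have hdd : ∀ u ∈ F, d u = d' u := fun u hu => max_eq_right (hd' u hu).1
    set E : ℕ × ℕ → ℕ := fun u => d u * (p ^ u.1 * q ^ u.2) with hE
    have hE0 : ∀ u, E u ≠ 0 := fun u => by
      have := hd1 u
      rw [hE]; positivity
    have hE0R : ∀ u, (0 : ℝ) < E u := fun u => by
      have := hE0 u
      positivity
    have hmem : ∀ u ∈ F, (u.1 : ℝ) * lp + (u.2 : ℝ) * lq ≤ N ∧ (d u : ℝ) ≤ Real.exp (η * N) ∧
        Real.exp (-(A * κ * N)) ≤ ‖(E u) • (θ : UnitAddCircle)‖ ∧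
        ‖(E u) • (θ : UnitAddCircle)‖ ≤ Real.exp (-(κ * N)) := by
      intro u hu
      have h1 := hmem0 u hu
      obtain ⟨h2, h3, h4, h5⟩ := hd' u hu
      have e : (E u) • (θ : UnitAddCircle) = d' u • ((p ^ u.1 * q ^ u.2) • (θ : UnitAddCircle)) := by
        rw [hE]; simp only; rw [hdd u hu, mul_smul]
      rw [e, hdd u hu]
      exact ⟨h1.1, h3, h4, h5⟩
    set r : ℕ × ℕ → ℚ := fun u => (round ((E u : ℝ) * θ) : ℚ) / (E u : ℚ) with hr
    have hlogE : ∀ u : ℕ × ℕ, Real.log (E u) = Real.log (d u) + ((u.1 : ℝ) * lp + (u.2 : ℝ) * lq) := by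
      intro u
      have hdu : (0 : ℝ) < d u := by exact_mod_cast hd1 u
      rw [hE]
      push_cast
      rw [Real.log_mul hdu.ne' (by positivity), Real.log_mul (by positivity) (by positivity),
        Real.log_pow, Real.log_pow]
    -- the distance
    have hdist : ∀ u : ℕ × ℕ, |θ - (r u : ℝ)| = ‖(E u) • (θ : UnitAddCircle)‖ / (E u : ℝ) := by
      intro u
      rw [norm_nsmul_theta, hr]
      push_cast
      have h1 := hE0R u
      rw [← abs_of_pos h1, ← abs_div, abs_of_pos h1]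
      congr 1
      field_simp
    -- the representation of the approximants
    have hrep : ∀ u : ℕ × ℕ, ((d u * (p ^ u.1 * q ^ u.2) : ℕ) : ℚ) * r u =
        (round ((E u : ℝ) * θ) : ℤ) := by
      intro u
      have h1 : ((E u : ℕ) : ℚ) ≠ 0 := by exact_mod_cast hE0 u
      show ((E u : ℕ) : ℚ) * r u = _
      rw [hr]
      field_simp
    set h : ℚ → ℝ := fun ρ => -Real.log |θ - (ρ : ℝ)| with hh
    set R := F.image r with hR
    -- the level of the approximant
    have hpos : ∀ u ∈ F, 0 < ‖(E u) • (θ : UnitAddCircle)‖ := fun u hu =>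
      lt_of_lt_of_le (Real.exp_pos _) (hmem u hu).2.2.1
    have hlev : ∀ u ∈ F, h (r u) = Real.log (d u) + ((u.1 : ℝ) * lp + (u.2 : ℝ) * lq) -
        Real.log ‖(E u) • (θ : UnitAddCircle)‖ := by
      intro u hu
      rw [hh]
      simp only
      rw [hdist u, Real.log_div (hpos u hu).ne' (hE0R u).ne', hlogE u]
      ring
    have hlog : ∀ u ∈ F, -(A * κ * N) ≤ Real.log ‖(E u) • (θ : UnitAddCircle)‖ ∧
        Real.log ‖(E u) • (θ : UnitAddCircle)‖ ≤ -(κ * N) := by
      intro u hu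
      obtain ⟨-, -, h2, h3⟩ := hmem u hu
      constructor
      · rw [← Real.log_exp (-(A * κ * N))]
        exact Real.log_le_log (Real.exp_pos _) h2
      · rw [← Real.log_exp (-(κ * N))]
        exact Real.log_le_log (hpos u hu) h3
    have hlogd : ∀ u ∈ F, 0 ≤ Real.log (d u) ∧ Real.log (d u) ≤ η * N := by
      intro u hu
      have h1 : (1 : ℝ) ≤ d u := by exact_mod_cast hd1 u
      refine ⟨Real.log_nonneg h1, ?_⟩
      rw [← Real.log_exp (η * N)]
      exact Real.log_le_log (by linarith) (hmem u hu).2.1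
    have hR' : ∀ ρ ∈ R, ∃ u ∈ F, r u = ρ := fun ρ hρ => Finset.mem_image.1 hρ
    choose! w hwF hwr using hR'
    have hAκN : A * κ * N ≤ N := by
      have := mul_le_mul_of_nonneg_right hAκ hNpos.le
      linarith
    set M : ℝ := 3 * N with hM
    have hMpos : 0 < M := by rw [hM]; linarith
    have hhM : ∀ ρ ∈ R, h ρ ≤ M := by
      intro ρ hρR
      have h1 := hlev (w ρ) (hwF ρ hρR)
      rw [hwr ρ hρR] at h1
      obtain ⟨h2, -⟩ := hlog (w ρ) (hwF ρ hρR)
      obtain ⟨-, h3⟩ := hlogd (w ρ) (hwF ρ hρR)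
      obtain ⟨h4, -⟩ := hmem (w ρ) (hwF ρ hρR)
      have h5 : η * N ≤ N := by nlinarith
      rw [h1, hM]; linarith
    -- few approximants: cluster inequality on a subset of bounded cardinality
    set K : ℕ := ⌈12 / κ⌉₊ + 1 with hK
    have hKle : (K : ℝ) ≤ 14 / κ := by
      have h1 : ((⌈12 / κ⌉₊ : ℕ) : ℝ) < 12 / κ + 1 := Nat.ceil_lt_add_one (by positivity)
      have h2 : 1 ≤ 1 / κ := by rw [le_div_iff₀ hκ]; linarith
      rw [hK]; push_cast
      have e : 14 / κ = 12 / κ + 1 / κ + 1 / κ := by ring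
      linarith
    have hsub : ∀ R1 ⊆ R, R1.card ≤ K → ∃ (B : ℕ) (m n : ℚ → ℕ), 1 ≤ B ∧
        Real.log B ≤ κ / 4 * N ∧
        (∀ ρ ∈ R1, ∀ (b i j : ℕ) (c : ℤ), 1 ≤ b → ((b * (p ^ i * q ^ j) : ℕ) : ℚ) * ρ = c →
          m ρ ≤ i + Nat.log 2 b ∧ n ρ ≤ j + Nat.log 2 b) ∧
        (∀ ρ ∈ R1, κ / 2 * N ≤ h ρ - Real.log B - (m ρ : ℝ) * lp - (n ρ : ℝ) * lq) ∧
        ∑ ρ ∈ R1, (h ρ - Real.log B - (m ρ : ℝ) * lp - (n ρ : ℝ) * lq) ≤ 6 * N := by
      intro R1 hR1 hcard
      set B : ℕ := ∏ ρ ∈ R1, d (w ρ) with hB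
      have hB1 : 1 ≤ B := by
        rw [Nat.one_le_iff_ne_zero, hB, Finset.prod_ne_zero_iff]
        intro ρ _
        have := hd1 (w ρ)
        omega
      have hBlog : Real.log B ≤ κ / 4 * N := by
        have h1 : Real.log B = ∑ ρ ∈ R1, Real.log (d (w ρ)) := by
          rw [hB]; push_cast
          rw [Real.log_prod]
          intro ρ _
          have := hd1 (w ρ)
          positivity
        rw [h1]
        calc ∑ ρ ∈ R1, Real.log (d (w ρ)) ≤ ∑ _ρ ∈ R1, η * N :=
              Finset.sum_le_sum fun ρ hρ => (hlogd (w ρ) (hwF ρ (hR1 hρ))).2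
          _ = (R1.card : ℝ) * (η * N) := by rw [Finset.sum_const, nsmul_eq_mul]
          _ ≤ 14 / κ * (η * N) := by
              apply mul_le_mul_of_nonneg_right _ (by positivity)
              have : (R1.card : ℝ) ≤ K := by exact_mod_cast hcard
              linarith
          _ = 14 * c * κ * N := by rw [hη]; field_simp
          _ ≤ κ / 4 * N := by
              apply mul_le_mul_of_nonneg_right _ hNpos.le
              nlinarith
      have hs : ∀ ρ ∈ R1, ((w ρ).1 : ℝ) * lp + ((w ρ).2 : ℝ) * lq + Real.log B + κ / 2 * N ≤ h ρ := by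
        intro ρ hρ
        have h1 := hlev (w ρ) (hwF ρ (hR1 hρ))
        rw [hwr ρ (hR1 hρ)] at h1
        obtain ⟨-, h2⟩ := hlog (w ρ) (hwF ρ (hR1 hρ))
        obtain ⟨h3, -⟩ := hlogd (w ρ) (hwF ρ (hR1 hρ))
        rw [h1]
        have h4 : κ / 4 * N + κ / 2 * N ≤ κ * N := by
          have : 0 ≤ κ * N := by positivity
          linarith
        linarith
      obtain ⟨m, n, h1, h2, h3⟩ := hN0 M (by
          refine (le_abs_self N0).trans (((le_max_left _ _).trans hN).trans ?_)
          rw [hM]; linarith) hMpos θ R1 B h (fun ρ => (w ρ).1) (fun ρ => (w ρ).2) hB1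
        (by
          intro ρ hρ
          have h4 := hrep (w ρ)
          rw [hwr ρ (hR1 hρ)] at h4
          obtain ⟨b', hb'⟩ : d (w ρ) ∣ B := Finset.dvd_prod_of_mem _ hρ
          refine ⟨(b' : ℤ) * round ((E (w ρ) : ℝ) * θ), ?_⟩
          rw [hb']
          push_cast at h4 ⊢
          rw [← h4]; ring)
        (fun ρ hρ => hhM ρ (hR1 hρ))
        (by
          intro ρ hρ
          have h4 : 0 < |θ - (ρ : ℝ)| := by
            rw [← hwr ρ (hR1 hρ), hdist]
            exact div_pos (hpos _ (hwF ρ (hR1 hρ))) (hE0R _)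
          rw [hh]
          simp only [neg_neg]
          rw [Real.exp_log h4])
        (by
          intro ρ hρ
          have h4 := hs ρ hρ
          have h5 : κ / 6 * M = κ / 2 * N := by rw [hM]; ring
          rw [h5]; exact h4)
      refine ⟨B, m, n, hB1, hBlog, h1, ?_, ?_⟩
      · intro ρ hρ
        have h4 := hs ρ hρ
        obtain ⟨h5, h6⟩ := h2 ρ hρ
        have h7 : (m ρ : ℝ) * lp ≤ ((w ρ).1 : ℝ) * lp :=
          mul_le_mul_of_nonneg_right (by exact_mod_cast h5) hlp.le
        have h8 : (n ρ : ℝ) * lq ≤ ((w ρ).2 : ℝ) * lq :=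
          mul_le_mul_of_nonneg_right (by exact_mod_cast h6) hlq.le
        linarith
      · refine h3.trans ?_
        rw [hM]; linarith
    have hRK : R.card ≤ K := by
      by_contra hcon
      push Not at hcon
      obtain ⟨R1, hR1, hcard⟩ := Finset.exists_subset_card_eq (n := K) (s := R) hcon.le
      obtain ⟨B, m, n, -, -, -, h1, h2⟩ := hsub R1 hR1 hcard.le
      have h3 : (K : ℝ) * (κ / 2 * N) ≤ 6 * N := by
        refine le_trans ?_ h2
        rw [← hcard, ← nsmul_eq_mul, ← Finset.sum_const]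
        exact Finset.sum_le_sum h1
      have h4 : 12 / κ < K := by
        have := Nat.le_ceil (12 / κ)
        rw [hK]; push_cast; linarith
      rw [div_lt_iff₀ hκ] at h4
      nlinarith
    obtain ⟨B, m, n, hB1, hBlog, hmn, hs1, hsum⟩ := hsub R (Finset.Subset.refl _) hRK
    set s : ℚ → ℝ := fun ρ => h ρ - Real.log B - (m ρ : ℝ) * lp - (n ρ : ℝ) * lq with hs
    have hs1' : ∀ ρ ∈ R, κ / 2 * N ≤ s ρ := hs1
    have hsum' : ∑ ρ ∈ R, s ρ ≤ 6 * N := hsum
    have hcardR : (R.card : ℝ) ≤ 12 * N := by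
      have h1 : (R.card : ℝ) * (1 / 2) ≤ ∑ ρ ∈ R, s ρ := by
        rw [← nsmul_eq_mul, ← Finset.sum_const]
        refine Finset.sum_le_sum fun ρ hρR => ?_
        have := hs1' ρ hρR
        linarith
      linarith
    -- the count
    set k0 : ℕ := ⌊η * N / Real.log 2⌋₊ with hk0
    have hk0le : (k0 : ℝ) * (lp + lq) ≤ κ / 4 * N := by
      have h1 : (k0 : ℝ) ≤ η * N / Real.log 2 := Nat.floor_le (by positivity)
      calc (k0 : ℝ) * (lp + lq) ≤ η * N / Real.log 2 * (lp + lq) :=
            mul_le_mul_of_nonneg_right h1 (by positivity)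
        _ = (c * (lp + lq) / Real.log 2) * (κ ^ 2 * N) := by rw [hη]; ring
        _ ≤ 1 / 4 * (κ ^ 2 * N) := mul_le_mul_of_nonneg_right hc2 (by positivity)
        _ ≤ κ / 4 * N := by
            have : κ ^ 2 * N ≤ κ * N := mul_le_mul_of_nonneg_right (by nlinarith) hNpos.le
            linarith
    rw [Set.ncard_eq_toFinset_card _ hSf]
    have hcount : ∀ ρ ∈ R, ((F.filter fun u => r u = ρ).card : ℝ) ≤
        (s ρ / lp + 1) * (((h ρ - κ * N) - (h ρ - η * N - A * κ * N)) / lq + 1) := by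
      intro ρ hρR
      have hs0 : 0 ≤ s ρ := by
        have := hs1' ρ hρR
        have h2 : 0 ≤ κ / 2 * N := by positivity
        linarith
      have hαβ : h ρ - η * N - A * κ * N ≤ h ρ - κ * N := by
        have h1 : 1 * (κ * N) ≤ A * (κ * N) := mul_le_mul_of_nonneg_right hA (by positivity)
        have h2 : 0 ≤ η * N := by positivity
        nlinarith
      refine card_strip (F.filter fun u => r u = ρ) hlp hlq hαβ hs0 (m ρ - k0) ?_
      intro u hu
      obtain ⟨hu1, hu2⟩ := Finset.mem_filter.1 hu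
      obtain ⟨h1, h2⟩ := hlog u hu1
      obtain ⟨h3, h4⟩ := hlogd u hu1
      have h6 := hlev u hu1
      have h7 := hrep u
      rw [hu2] at h6 h7
      obtain ⟨h8, h9⟩ := hmn ρ hρR (d u) u.1 u.2 _ (hd1 u) h7
      have h10 : Nat.log 2 (d u) ≤ k0 := natlog_le (hd1 u) (hmem u hu1).2.1
      have h11 : (n ρ : ℝ) * lq ≤ ((u.2 : ℝ) + k0) * lq :=
        mul_le_mul_of_nonneg_right (by exact_mod_cast h9.trans (by omega)) hlq.le
      have h12 : (m ρ : ℝ) - k0 ≤ ((m ρ - k0 : ℕ) : ℝ) := by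
        rw [sub_le_iff_le_add]
        have : m ρ ≤ (m ρ - k0) + k0 := by omega
        exact_mod_cast this
      have h13 : ((m ρ : ℝ) - k0) * lp ≤ ((m ρ - k0 : ℕ) : ℝ) * lp :=
        mul_le_mul_of_nonneg_right h12 hlp.le
      refine ⟨by omega, ?_, by linarith, by linarith⟩
      rw [hs]
      simp only
      have h14 : (u.1 : ℝ) * lp ≤ h ρ - κ * N - (u.2 : ℝ) * lq := by linarith
      have h15 : 0 ≤ κ * N := by positivity
      nlinarith
    have hfib : F.card = ∑ ρ ∈ R, (F.filter fun u => r u = ρ).card :=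
      Finset.card_eq_sum_card_image r F
    have hb1 : ∀ ρ, ((h ρ - κ * N) - (h ρ - η * N - A * κ * N)) / lq + 1 ≤ Q * (A * κ * N) := by
      intro ρ
      have h1 : 1 ≤ A * κ * N := by nlinarith
      have e : (h ρ - κ * N) - (h ρ - η * N - A * κ * N) = A * κ * N - (κ - η) * N := by ring
      have h2 : (A * κ * N - (κ - η) * N) / lq ≤ A * κ * N / lq := by
        apply div_le_div_of_nonneg_right _ hlq.le
        have : 0 ≤ (κ - η) * N := mul_nonneg (by linarith) hNpos.le
        linarith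
      rw [e, hQ, add_mul, one_mul, div_mul_eq_mul_div, one_mul]
      linarith
    calc (F.card : ℝ) = ∑ ρ ∈ R, ((F.filter fun u => r u = ρ).card : ℝ) := by
          rw [hfib]; push_cast; rfl
      _ ≤ ∑ ρ ∈ R, (s ρ / lp + 1) * (((h ρ - κ * N) - (h ρ - η * N - A * κ * N)) / lq + 1) :=
          Finset.sum_le_sum hcount
      _ ≤ ∑ ρ ∈ R, (s ρ / lp + 1) * (Q * (A * κ * N)) := by
          refine Finset.sum_le_sum fun ρ hρR => mul_le_mul_of_nonneg_left (hb1 ρ) ?_
          have h1 := hs1' ρ hρR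
          have h2 : 0 ≤ κ / 2 * N := by positivity
          have h3 : 0 ≤ s ρ := by linarith
          positivity
      _ = (∑ ρ ∈ R, s ρ / lp + R.card) * (Q * (A * κ * N)) := by
          rw [← Finset.sum_mul, Finset.sum_add_distrib, Finset.sum_const, nsmul_eq_mul, mul_one]
      _ ≤ (P * (12 * N)) * (Q * (A * κ * N)) := by
          apply mul_le_mul_of_nonneg_right _ (by positivity)
          rw [← Finset.sum_div, hP, add_mul, one_mul, div_mul_eq_mul_div, one_mul]
          have h1 := div_le_div_of_nonneg_right hsum' hlp.le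
          have h2 : 6 * N / lp ≤ 12 * N / lp :=
            div_le_div_of_nonneg_right (by linarith) hlp.le
          linarith
      _ = 12 * P * Q * A * κ * N ^ 2 := by ring

end Pool.Agent.N254.UD
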