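import Mathlib
import Pool.Agent.N254.UD.PointB
import Pool.Agent.R203.SC.Meas
import Pool.Agent.TH461.SST.Main

/-!
Invariant measures: small denominators at one scale.
-/

set_option autoImplicit false
open Finset MeasureTheory

namespace Pool.Agent.N254.UD

open Pool.Agent.R203.SC Pool.Agent.TH461.SST

/-- Averaging over a finite set of multiplications which preserve the measure. -/
lemma avg {p q : ℕ} {μ : Measure UnitAddCircle} [IsProbabilityMeasure μ]
    (hμp : MeasurePreserving (fun x : UnitAddCircle => p • x) μ μ)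
    (hμq : MeasurePreserving (fun x : UnitAddCircle => q • x) μ μ) {E : Set UnitAddCircle}
    (hE : MeasurableSet E) (W : Finset (ℕ × ℕ)) {g : UnitAddCircle → ℝ} (hg : Integrable g μ)
    (h : ∀ x, ∑ u ∈ W, (E.indicator (fun _ => (1 : ℝ)) ((p ^ u.1 * q ^ u.2) • x)) ≤ g x) :
    (W.card : ℝ) * μ.real E ≤ ∫ x, g x ∂μ := by
  have h1 : ∀ u : ℕ × ℕ, μ.real E =
      ∫ x, (E.indicator (fun _ => (1 : ℝ)) ((p ^ u.1 * q ^ u.2) • x)) ∂μ := by
    intro u
    have hmp := mp_pow hμp hμq u.1 u.2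
    have e1 : ∫ x, (E.indicator (fun _ => (1 : ℝ)) ((p ^ u.1 * q ^ u.2) • x)) ∂μ =
        ∫ x, E.indicator (fun _ => (1 : ℝ)) x ∂μ := by
      have h2 := integral_map (μ := μ) (φ := fun x : UnitAddCircle => (p ^ u.1 * q ^ u.2) • x)
        hmp.measurable.aemeasurable (f := E.indicator (fun _ => (1 : ℝ)))
        ((measurable_const.indicator hE).aestronglyMeasurable)
      rw [hmp.map_eq] at h2
      exact h2.symm
    rw [e1, integral_indicator hE]
    simp
  have h3 : (W.card : ℝ) * μ.real E =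
      ∫ x, ∑ u ∈ W, (E.indicator (fun _ => (1 : ℝ)) ((p ^ u.1 * q ^ u.2) • x)) ∂μ := by
    rw [integral_finsetSum, ← nsmul_eq_mul, ← Finset.sum_const]
    · exact Finset.sum_congr rfl fun u _ => h1 u
    · intro u _
      apply Integrable.of_bound (C := 1)
      · exact ((measurable_const.indicator hE).comp
          (mp_pow hμp hμq u.1 u.2).measurable).aestronglyMeasurable
      · refine Filter.Eventually.of_forall fun x => ?_
        rw [Real.norm_of_nonneg (Set.indicator_nonneg (fun _ _ => zero_le_one) _)]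
        exact Set.indicator_le_self' (fun _ _ => zero_le_one) _ |>.trans le_rfl
  rw [h3]
  exact integral_mono_of_nonneg (Filter.Eventually.of_forall fun x => Finset.sum_nonneg fun u _ =>
    Set.indicator_nonneg (fun _ _ => zero_le_one) _) hg (Filter.Eventually.of_forall h)

/-- The points which are close, but not too close, to zero after multiplication by some
`1 ≤ d ≤ e ^ H`. -/
def shell (H a b : ℝ) : Set UnitAddCircle :=
  {x | ∃ d : ℕ, 1 ≤ d ∧ (d : ℝ) ≤ Real.exp H ∧ a ≤ ‖d • x‖ ∧ ‖d • x‖ ≤ b}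

lemma shell_closed (H a b : ℝ) : IsClosed (shell H a b) := by
  have e : shell H a b = ⋃ d ∈ Finset.Icc 1 ⌊Real.exp H⌋₊,
      {x : UnitAddCircle | a ≤ ‖d • x‖ ∧ ‖d • x‖ ≤ b} := by
    ext x
    simp only [shell, Set.mem_ofPred_eq, Set.mem_iUnion, exists_prop, Finset.mem_Icc]
    constructor
    · rintro ⟨d, h1, h2, h3⟩
      exact ⟨d, ⟨h1, Nat.le_floor h2⟩, h3⟩
    · rintro ⟨d, ⟨h1, h2⟩, h3⟩
      exact ⟨d, h1, (Nat.le_floor_iff (Real.exp_pos H).le).1 h2, h3⟩
  rw [e]
  apply Set.Finite.isClosed_biUnion (Finset.finite_toSet _)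
  intro d _
  have hc : Continuous fun x : UnitAddCircle => ‖d • x‖ := by fun_prop
  exact (isClosed_le continuous_const hc).inter (isClosed_le hc continuous_const)

lemma sum_ind {p q : ℕ} (hp : 2 ≤ p) (hq : 2 ≤ q) {N H a b : ℝ} (x : UnitAddCircle)
    (W : Finset (ℕ × ℕ))
    (hW : ∀ u ∈ W, (u.1 : ℝ) * Real.log p + (u.2 : ℝ) * Real.log q ≤ N) :
    ∑ u ∈ W, ((shell H a b).indicator (fun _ => (1 : ℝ)) ((p ^ u.1 * q ^ u.2) • x)) ≤
      (cellsB p q N H a b x).ncard := by
  classical
  have e : ∑ u ∈ W, ((shell H a b).indicator (fun _ => (1 : ℝ)) ((p ^ u.1 * q ^ u.2) • x)) =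
      ((W.filter fun u => (p ^ u.1 * q ^ u.2) • x ∈ shell H a b).card : ℝ) := by
    rw [Finset.card_filter]
    push_cast
    exact Finset.sum_congr rfl fun u _ => by rw [Set.indicator_apply]
  rw [e, ← Set.ncard_coe_finset]
  have : (W.filter fun u => (p ^ u.1 * q ^ u.2) • x ∈ shell H a b : Set (ℕ × ℕ)) ⊆
      cellsB p q N H a b x := by
    intro u hu
    rw [Finset.mem_coe, Finset.mem_filter] at hu
    exact ⟨hW u hu.1, hu.2⟩
  exact_mod_cast Set.ncard_le_ncard this (cellsB_finite hp hq N H a b x)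

/-- **All invariant measures.** -/
theorem measB {p q : ℕ} (hp : 2 ≤ p) (hq : 2 ≤ q) (hpq : Nat.Coprime p q) :
    ∃ c : ℝ, 0 < c ∧ ∀ A ε : ℝ, 1 ≤ A → 0 < ε → ∃ T₀ : ℝ, ∀ T : ℝ, T₀ ≤ T →
      ∀ μ : Measure UnitAddCircle, IsProbabilityMeasure μ →
      MeasurePreserving (fun x : UnitAddCircle => p • x) μ μ →
      MeasurePreserving (fun x : UnitAddCircle => q • x) μ μ →
        μ.real (shell (c * ε / A * T) (Real.exp (-(A * T))) (Real.exp (-T))) ≤ ε := by
  have hlp : 0 < Real.log p := Real.log_pos (by exact_mod_cast (by omega : 1 < p))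
  have hlq : 0 < Real.log q := Real.log_pos (by exact_mod_cast (by omega : 1 < q))
  obtain ⟨C, c, hC, hc, h⟩ := pointB hp hq hpq (Main.cluster hp hq hpq)
  refine ⟨c / (4 * C * Real.log p * Real.log q), by positivity, fun A ε hA hε => ?_⟩
  have hA0 : 0 < A := by linarith
  set κ : ℝ := ε / (4 * C * A * Real.log p * Real.log q) with hκ
  have hκ0 : 0 < κ := by positivity
  obtain ⟨N₀, hN₀⟩ := h A κ hA hκ0
  refine ⟨κ * (|N₀| + 1), fun T hT μ hμ hμp hμq => ?_⟩
  set N := T / κ with hN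
  have hN1 : |N₀| + 1 ≤ N := by rw [hN, le_div_iff₀ hκ0]; linarith
  have hN0 : 0 < N := by have := abs_nonneg N₀; linarith
  have hκN : κ * N = T := by rw [hN]; field_simp
  have hH : c / (4 * C * Real.log p * Real.log q) * ε / A * T = c * κ ^ 2 * N := by
    rw [← hκN, hκ]; field_simp
  obtain ⟨W, hW1, hW2, hW3⟩ := box hp hq hN0
  rw [hH]
  set E := shell (c * κ ^ 2 * N) (Real.exp (-(A * T))) (Real.exp (-T)) with hE
  have h1 := avg hμp hμq (shell_closed _ _ _).measurableSet W (g := fun _ => C * A * κ * N ^ 2)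
    (E := E) (integrable_const _) (by
      intro x
      refine (sum_ind hp hq x W hW1).trans ?_
      have := hN₀ N (by have := le_abs_self N₀; linarith) x
      rw [mul_assoc A, hκN] at this
      exact this)
  rw [integral_const, probReal_univ, one_smul] at h1
  have h2 : C * A * κ * N ^ 2 ≤ (W.card : ℝ) * ε := by
    calc C * A * κ * N ^ 2 = N ^ 2 / (4 * Real.log p * Real.log q) * ε := by
          rw [hκ]; field_simp
      _ ≤ W.card * ε := mul_le_mul_of_nonneg_right hW2 hε.le
  exact le_of_mul_le_mul_left (h1.trans h2) hW3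

end Pool.Agent.N254.UD
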