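import Mathlib
import Pool.Agent.N254.UD.Meas

/-!
The mass of small balls of invariant measures, away from the rational numbers of small denominator.
-/

set_option autoImplicit false
open Finset MeasureTheory

namespace Pool.Agent.N254.UD

open Pool.Agent.R203.SC Pool.Agent.TH461.SST

lemma pow_inj {p q : ℕ} (hp : 2 ≤ p) (hq : 2 ≤ q) (hpq : Nat.Coprime p q) {u v : ℕ × ℕ}
    (h : p ^ u.1 * q ^ u.2 = p ^ v.1 * q ^ v.2) : u = v := by
  have key : ∀ p q : ℕ, 2 ≤ p → 2 ≤ q → Nat.Coprime p q → ∀ a b c d : ℕ,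
      p ^ a * q ^ b = p ^ c * q ^ d → a ≤ c := by
    intro p q hp hq hpq a b c d h
    have h1 : p ^ a ∣ p ^ c * q ^ d := by rw [← h]; exact dvd_mul_right _ _
    have h2 : Nat.Coprime (p ^ a) (q ^ d) := Nat.Coprime.pow _ _ hpq
    have h3 := h2.dvd_of_dvd_mul_right h1
    exact (Nat.pow_dvd_pow_iff_le_right (by omega)).1 h3
  have e1 := key p q hp hq hpq _ _ _ _ h
  have e2 := key p q hp hq hpq _ _ _ _ h.symm
  have h' : q ^ u.2 * p ^ u.1 = q ^ v.2 * p ^ v.1 := by rw [mul_comm, h, mul_comm]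
  have e3 := key q p hq hp hpq.symm _ _ _ _ h'
  have e4 := key q p hq hp hpq.symm _ _ _ _ h'.symm
  exact Prod.ext (le_antisymm e1 e2) (le_antisymm e3 e4)

lemma norm_nsmul_le' (n : ℕ) (x : UnitAddCircle) : ‖n • x‖ ≤ n * ‖x‖ := norm_nsmul_le

lemma meas_ball (μ : Measure UnitAddCircle) [IsProbabilityMeasure μ] (r : ℝ) :
    Measurable fun x : UnitAddCircle => μ.real (Metric.ball x r) := by
  have h1 : MeasurableSet {z : UnitAddCircle × UnitAddCircle | dist z.2 z.1 < r} :=
    (isOpen_lt (by fun_prop) continuous_const).measurableSet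
  have h2 : Measurable fun x : UnitAddCircle => μ (Metric.ball x r) :=
    measurable_measure_prodMk_left (ν := μ) h1
  exact h2.ennreal_toReal

/-- The points with a heavy ball of radius `e ^ (-T)` which are not too close to the rational numbers of
small denominator. -/
def heavy (μ : Measure UnitAddCircle) (K H A T : ℝ) : Set UnitAddCircle :=
  {x | K < μ.real (Metric.ball x (Real.exp (-T))) ∧ ∀ d : ℕ, 1 ≤ d → (d : ℝ) ≤ Real.exp H →
    Real.exp (-(A * T)) ≤ ‖d • x‖}

lemma heavy_meas (μ : Measure UnitAddCircle) [IsProbabilityMeasure μ] (K H A T : ℝ) :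
    MeasurableSet (heavy μ K H A T) := by
  have e : heavy μ K H A T = {x | K < μ.real (Metric.ball x (Real.exp (-T)))} ∩
      ⋂ d : ℕ, ⋂ (_ : 1 ≤ d), ⋂ (_ : (d : ℝ) ≤ Real.exp H),
        {x : UnitAddCircle | Real.exp (-(A * T)) ≤ ‖d • x‖} := by
    ext x
    simp [heavy]
  rw [e]
  refine (measurableSet_lt measurable_const (meas_ball μ _)).inter ?_
  refine MeasurableSet.iInter fun d => MeasurableSet.iInter fun _ => MeasurableSet.iInter fun _ => ?_
  have hc : Continuous fun x : UnitAddCircle => ‖d • x‖ := by fun_prop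
  exact (isClosed_le continuous_const hc).measurableSet

/-- Disjoint heavy balls. -/
lemma disj_balls (μ : Measure UnitAddCircle) [IsProbabilityMeasure μ] {ι : Type*} (V : Finset ι)
    (y : ι → UnitAddCircle) {r K : ℝ} (hK : ∀ u ∈ V, K ≤ μ.real (Metric.ball (y u) r))
    (hd : ∀ u ∈ V, ∀ v ∈ V, u ≠ v → 2 * r ≤ dist (y u) (y v)) : (V.card : ℝ) * K ≤ 1 := by
  have h1 : ∑ u ∈ V, μ.real (Metric.ball (y u) r) = μ.real (⋃ u ∈ V, Metric.ball (y u) r) := by
    rw [measureReal_biUnion_finset]
    · intro u hu v hv huv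
      apply Metric.ball_disjoint_ball
      have := hd u hu v hv huv
      linarith
    · intro u _
      exact Metric.isOpen_ball.measurableSet
  calc (V.card : ℝ) * K = ∑ _u ∈ V, K := by rw [Finset.sum_const, nsmul_eq_mul]
    _ ≤ ∑ u ∈ V, μ.real (Metric.ball (y u) r) := Finset.sum_le_sum hK
    _ = μ.real (⋃ u ∈ V, Metric.ball (y u) r) := h1
    _ ≤ 1 := measureReal_le_one

/-- **Small balls of invariant measures.** -/
theorem ball {p q : ℕ} (hp : 2 ≤ p) (hq : 2 ≤ q) (hpq : Nat.Coprime p q) :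
    ∃ c K : ℝ, 0 < c ∧ c ≤ 1 / 2 ∧ 0 < K ∧ ∀ A ε : ℝ, 1 ≤ A → 0 < ε → ε ≤ 1 →
      ∃ T₀ : ℝ, ∀ T : ℝ, T₀ ≤ T →
      ∀ μ : Measure UnitAddCircle, IsProbabilityMeasure μ →
      MeasurePreserving (fun x : UnitAddCircle => p • x) μ μ →
      MeasurePreserving (fun x : UnitAddCircle => q • x) μ μ →
        μ.real (heavy μ (K * A ^ 2 / (ε ^ 3 * T ^ 2)) (c * ε / A * T) A T) ≤ ε := by
  classical
  have hlp : 0 < Real.log p := Real.log_pos (by exact_mod_cast (by omega : 1 < p))
  have hlq : 0 < Real.log q := Real.log_pos (by exact_mod_cast (by omega : 1 < q))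
  obtain ⟨c, hc, h⟩ := measB hp hq hpq
  set c1 : ℝ := min (c / 16) (1 / 2) with hc1
  have hc10 : 0 < c1 := lt_min (by positivity) (by norm_num)
  have hc11 : c1 ≤ c / 16 := min_le_left _ _
  have hc12 : c1 ≤ 1 / 2 := min_le_right _ _
  refine ⟨c1, 8 * Real.log p * Real.log q / c1 ^ 2, hc10, hc12, by positivity,
    fun A ε hA hε hε1 => ?_⟩
  have hA0 : 0 < A := by linarith
  obtain ⟨T₀, hT₀⟩ := h (4 * A) (ε / 2) (by linarith) (by linarith)
  refine ⟨max (T₀ + 1) 2, fun T hT μ hμ hμp hμq => ?_⟩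
  have hT2 : 2 ≤ T := (le_max_right _ _).trans hT
  have hT1 : T₀ + 1 ≤ T := (le_max_left _ _).trans hT
  have hl2 : Real.log 2 ≤ 1 := by
    have := Real.log_two_lt_d9; linarith
  have hl20 : 0 < Real.log 2 := Real.log_pos (by norm_num)
  set T' : ℝ := T - Real.log 2 with hT'
  have hT'2 : T / 2 ≤ T' := by rw [hT']; linarith
  set η : ℝ := c1 * ε / A with hη
  have hη0 : 0 < η := by positivity
  have hη1 : η ≤ 1 := by
    rw [hη, div_le_one hA0]
    nlinarith
  have hsh := hT₀ T' (by rw [hT']; linarith) μ hμ hμp hμq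
  set E' := shell (c * (ε / 2) / (4 * A) * T') (Real.exp (-(4 * A * T'))) (Real.exp (-T')) with hE'
  set K : ℝ := 8 * Real.log p * Real.log q / c1 ^ 2 * A ^ 2 / (ε ^ 3 * T ^ 2) with hK
  have hK0 : 0 < K := by positivity
  set S := heavy μ K (η * T) A T with hS
  obtain ⟨W, hW1, hW2, hW3⟩ := box hp hq (N := η * T) (by positivity)
  have hηT : η * T ≤ c * (ε / 2) / (4 * A) * T' := by
    have h1 : c * (ε / 2) / (4 * A) * (T / 2) ≤ c * (ε / 2) / (4 * A) * T' :=
      mul_le_mul_of_nonneg_left hT'2 (by positivity)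
    refine le_trans ?_ h1
    have e : c * (ε / 2) / (4 * A) * (T / 2) = (c / 16) * ε / A * T := by ring
    rw [e, hη]
    gcongr
  have hexpT' : Real.exp (-T') = 2 * Real.exp (-T) := by
    rw [hT', show -(T - Real.log 2) = Real.log 2 + -T by ring, Real.exp_add,
      Real.exp_log (by norm_num)]
  have hDle : ∀ u ∈ W, ((p ^ u.1 * q ^ u.2 : ℕ) : ℝ) ≤ Real.exp (η * T) := by
    intro u hu
    have h1 := hW1 u hu
    have h2 : Real.log ((p ^ u.1 * q ^ u.2 : ℕ) : ℝ) = (u.1 : ℝ) * Real.log p +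
        (u.2 : ℝ) * Real.log q := by
      push_cast
      rw [Real.log_mul (by positivity) (by positivity), Real.log_pow, Real.log_pow]
    rw [← Real.log_le_iff_le_exp (by positivity), h2]
    exact h1
  -- the pointwise count
  have hpt : ∀ x, ∑ u ∈ W, (S.indicator (fun _ => (1 : ℝ)) ((p ^ u.1 * q ^ u.2) • x)) ≤
      1 / K + (W.card : ℝ) * E'.indicator (fun _ => (1 : ℝ)) x := by
    intro x
    have e : ∑ u ∈ W, (S.indicator (fun _ => (1 : ℝ)) ((p ^ u.1 * q ^ u.2) • x)) =
        ((W.filter fun u => (p ^ u.1 * q ^ u.2) • x ∈ S).card : ℝ) := by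
      rw [Finset.card_filter]
      push_cast
      exact Finset.sum_congr rfl fun u _ => by rw [Set.indicator_apply]
    rw [e]
    by_cases hx : x ∈ E'
    · rw [Set.indicator_of_mem hx]
      have h1 : ((W.filter fun u => (p ^ u.1 * q ^ u.2) • x ∈ S).card : ℝ) ≤ W.card := by
        exact_mod_cast Finset.card_filter_le _ _
      have h2 : 0 ≤ 1 / K := by positivity
      linarith
    · rw [Set.indicator_of_notMem hx, mul_zero, add_zero]
      rw [le_div_iff₀ hK0]
      refine disj_balls μ _ (fun u => (p ^ u.1 * q ^ u.2) • x) (r := Real.exp (-T)) ?_ ?_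
      · intro u hu
        obtain ⟨-, hu2⟩ := Finset.mem_filter.1 hu
        exact hu2.1.le
      · -- two close points give a small denominator
        have key : ∀ u v : ℕ × ℕ, u ∈ W → v ∈ W → p ^ u.1 * q ^ u.2 < p ^ v.1 * q ^ v.2 →
            (p ^ u.1 * q ^ u.2) • x ∈ S →
            2 * Real.exp (-T) ≤ ‖(p ^ v.1 * q ^ v.2) • x - (p ^ u.1 * q ^ u.2) • x‖ := by
          intro u v hu hv hlt huS
          by_contra hcon
          push Not at hcon
          set d : ℕ := p ^ v.1 * q ^ v.2 - p ^ u.1 * q ^ u.2 with hd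
          have hd1 : 1 ≤ d := by omega
          have hdx : (p ^ v.1 * q ^ v.2) • x - (p ^ u.1 * q ^ u.2) • x = d • x := by
            rw [hd, sub_nsmul _ hlt.le]
            abel
          rw [hdx, ← hexpT'] at hcon
          have hdle : (d : ℝ) ≤ Real.exp (η * T) := by
            refine le_trans ?_ (hDle v hv)
            exact_mod_cast Nat.sub_le _ _
          have h1 : ‖d • x‖ < Real.exp (-(4 * A * T')) := by
            by_contra h2
            push Not at h2
            exact hx ⟨d, hd1, hdle.trans (Real.exp_le_exp.2 hηT), h2, hcon.le⟩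
          have h3 := huS.2 d hd1 hdle
          have h4 : ‖d • ((p ^ u.1 * q ^ u.2) • x)‖ ≤ ((p ^ u.1 * q ^ u.2 : ℕ) : ℝ) * ‖d • x‖ := by
            rw [smul_comm]
            exact norm_nsmul_le' _ _
          have h5 : ((p ^ u.1 * q ^ u.2 : ℕ) : ℝ) * ‖d • x‖ <
              Real.exp (η * T) * Real.exp (-(4 * A * T')) := by
            apply mul_lt_mul' (hDle u hu) h1 (norm_nonneg _) (Real.exp_pos _)
          rw [← Real.exp_add] at h5
          have h6 : Real.exp (η * T + -(4 * A * T')) ≤ Real.exp (-(A * T)) := by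
            apply Real.exp_le_exp.2
            have h7 : 4 * A * (T / 2) ≤ 4 * A * T' := mul_le_mul_of_nonneg_left hT'2 (by positivity)
            have h8 : η * T ≤ A * T := mul_le_mul_of_nonneg_right (by linarith) (by linarith)
            linarith
          linarith
        intro u hu v hv huv
        obtain ⟨hu1, hu2⟩ := Finset.mem_filter.1 hu
        obtain ⟨hv1, hv2⟩ := Finset.mem_filter.1 hv
        have hne : p ^ u.1 * q ^ u.2 ≠ p ^ v.1 * q ^ v.2 := fun hcon =>
          huv (pow_inj hp hq hpq hcon)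
        rw [dist_eq_norm]
        rcases lt_or_gt_of_ne hne with hlt | hlt
        · rw [norm_sub_rev]
          exact key u v hu1 hv1 hlt hu2
        · exact key v u hv1 hu1 hlt hv2
  have hE'm : MeasurableSet E' := (shell_closed _ _ _).measurableSet
  have hint : Integrable (fun x => 1 / K + (W.card : ℝ) * E'.indicator (fun _ => (1 : ℝ)) x) μ :=
    (integrable_const _).add (((integrable_const _).indicator hE'm).const_mul _)
  have h1 := avg hμp hμq (heavy_meas μ K (η * T) A T) W hint hpt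
  have h2 : ∫ x, (1 / K + (W.card : ℝ) * E'.indicator (fun _ => (1 : ℝ)) x) ∂μ =
      1 / K + (W.card : ℝ) * μ.real E' := by
    rw [integral_add (integrable_const _) (((integrable_const _).indicator hE'm).const_mul _),
      integral_const, probReal_univ, one_smul, integral_const_mul, integral_indicator hE'm]
    simp
  rw [h2] at h1
  have h3 : 1 / K ≤ (W.card : ℝ) * (ε / 2) := by
    calc 1 / K = (η * T) ^ 2 / (4 * Real.log p * Real.log q) * (ε / 2) := by
          rw [hK, hη]; field_simp; norm_num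
      _ ≤ (W.card : ℝ) * (ε / 2) := mul_le_mul_of_nonneg_right hW2 (by linarith)
  have h4 : (W.card : ℝ) * μ.real E' ≤ (W.card : ℝ) * (ε / 2) :=
    mul_le_mul_of_nonneg_left hsh hW3.le
  have h5 : (W.card : ℝ) * μ.real S ≤ (W.card : ℝ) * ε := by
    have : (W.card : ℝ) * ε = (W.card : ℝ) * (ε / 2) + (W.card : ℝ) * (ε / 2) := by ring
    linarith
  exact le_of_mul_le_mul_left h5 hW3

end Pool.Agent.N254.UD
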