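import Mathlib
import Pool.Agent.N254.UD.Ball
import Pool.Agent.R203.SC.Tors
import Pool.Agent.H847R3.SuppC

/-!
Periodic orbits, and measures which do not charge the Liouville numbers.
-/

set_option autoImplicit false
open Finset MeasureTheory

namespace Pool.Agent.N254.UD

open Pool.Agent.R203.SC Pool.Agent.TH461.SST Pool.Agent.H847R3.XpXq

/-- The uniform measure on a periodic orbit. -/
lemma unif_orb {p q N : ℕ} (hN : 1 ≤ N) (hco : Nat.Coprime N (p * q)) {x : UnitAddCircle}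
    (hx : N • x = 0) {O : Finset UnitAddCircle}
    (hO : ∀ y, y ∈ O ↔ ∃ i j : ℕ, y = (p ^ i * q ^ j) • x) :
    IsProbabilityMeasure (unif O) ∧
      MeasurePreserving (fun x : UnitAddCircle => p • x) (unif O) (unif O) ∧
      MeasurePreserving (fun x : UnitAddCircle => q • x) (unif O) (unif O) := by
  have hcop : Nat.Coprime p N := (Nat.Coprime.coprime_mul_right_right hco).symm
  have hcoq : Nat.Coprime q N := (Nat.Coprime.coprime_mul_left_right hco).symm
  have hxO : x ∈ O := (hO x).2 ⟨0, 0, by simp⟩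
  have htor : ∀ y ∈ O, N • y = 0 := by
    intro y hy
    obtain ⟨i, j, rfl⟩ := (hO y).1 hy
    rw [smul_comm, hx, smul_zero]
  refine ⟨unif_prob ⟨x, hxO⟩, ?_, ?_⟩
  · refine unif_pres ?_ fun y hy z hz h => inj_of_coprime hcop (htor y hy) (htor z hz) h
    intro y hy
    obtain ⟨i, j, rfl⟩ := (hO y).1 hy
    exact (hO _).2 ⟨i + 1, j, by rw [← mul_smul, pow_succ']; ring_nf⟩
  · refine unif_pres ?_ fun y hy z hz h => inj_of_coprime hcoq (htor y hy) (htor z hz) h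
    intro y hy
    obtain ⟨i, j, rfl⟩ := (hO y).1 hy
    exact (hO _).2 ⟨i, j + 1, by rw [← mul_smul, pow_succ']; ring_nf⟩

/-- the points of the orbit have order `N` -/
lemma orb_order {p q N : ℕ} (hco : Nat.Coprime N (p * q)) {x : UnitAddCircle}
    (hx : addOrderOf x = N) (hN : 1 ≤ N) {y : UnitAddCircle} (hy : ∃ i j : ℕ, y = (p ^ i * q ^ j) • x)
    {d : ℕ} (hd : 1 ≤ d) (hdN : d < N) : d • y ≠ 0 := by
  obtain ⟨i, j, rfl⟩ := hy
  intro h
  rw [← mul_smul] at h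
  have h1 := addOrderOf_dvd_of_nsmul_eq_zero h
  rw [hx] at h1
  have hcop : Nat.Coprime N (p ^ i) := Nat.Coprime.pow_right _ (Nat.Coprime.coprime_mul_right_right hco)
  have hcoq : Nat.Coprime N (q ^ j) := Nat.Coprime.pow_right _ (Nat.Coprime.coprime_mul_left_right hco)
  have h2 : N ∣ d := (Nat.Coprime.mul_right hcop hcoq).dvd_of_dvd_mul_right h1
  have := Nat.le_of_dvd (by omega) h2
  omega

lemma aux_scale {δ : ℝ} (hδ : 0 < δ) {N : ℕ} (hN : 1 ≤ N) {s : ℝ} :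
    Real.exp (-(1 / δ * (δ * Real.log N))) = 1 / N ∧
    Real.exp (-(δ * Real.log N)) = (N : ℝ) ^ (-δ) ∧
    Real.exp (s / (1 / δ) * (δ * Real.log N)) = (N : ℝ) ^ (s * δ ^ 2) := by
  have hNR : (0 : ℝ) < N := by exact_mod_cast hN
  refine ⟨?_, ?_, ?_⟩
  · have e : 1 / δ * (δ * Real.log N) = Real.log N := by field_simp
    rw [e, Real.exp_neg, Real.exp_log hNR, one_div]
  · rw [Real.rpow_def_of_pos hNR]; congr 1; ring
  · rw [Real.rpow_def_of_pos hNR]; congr 1; field_simp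

/-- **Periodic orbits: small denominators.** -/
theorem perA {p q : ℕ} (hp : 2 ≤ p) (hq : 2 ≤ q) (hpq : Nat.Coprime p q) :
    ∃ c : ℝ, 0 < c ∧ ∀ δ ε : ℝ, 0 < δ → δ ≤ 1 → 0 < ε → ε ≤ 1 → ∃ N₀ : ℕ, ∀ N : ℕ, N₀ ≤ N →
      Nat.Coprime N (p * q) → ∀ x : UnitAddCircle, addOrderOf x = N →
      ∀ O : Finset UnitAddCircle, (∀ y, y ∈ O ↔ ∃ i j : ℕ, y = (p ^ i * q ^ j) • x) →
        ({y | y ∈ O ∧ ∃ d : ℕ, 1 ≤ d ∧ (d : ℝ) ≤ (N : ℝ) ^ (c * ε * δ ^ 2) ∧
          ‖d • y‖ ≤ (N : ℝ) ^ (-δ)}.ncard : ℝ) ≤ ε * O.card := by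
  classical
  obtain ⟨c, hc, h⟩ := measB hp hq hpq
  set c1 : ℝ := min c (1 / 2) with hc1
  have hc10 : 0 < c1 := lt_min hc (by norm_num)
  have hc1c : c1 ≤ c := min_le_left _ _
  have hc12 : c1 ≤ 1 / 2 := min_le_right _ _
  refine ⟨c1, hc10, fun δ ε hδ hδ1 hε hε1 => ?_⟩
  have hA : 1 ≤ 1 / δ := by rw [le_div_iff₀ hδ]; linarith
  obtain ⟨T₀, hT₀⟩ := h (1 / δ) ε hA hε
  refine ⟨⌈Real.exp (T₀ / δ)⌉₊ + 2, fun N hN hco x hx O hO => ?_⟩
  have hN1 : 1 ≤ N := by omega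
  have hNR : (1 : ℝ) < N := by exact_mod_cast (by omega : 1 < N)
  have hx0 : N • x = 0 := by rw [← hx]; exact addOrderOf_nsmul_eq_zero x
  obtain ⟨h1, h2, h3⟩ := unif_orb hN1 hco hx0 hO
  have hTT : T₀ ≤ δ * Real.log N := by
    have h4 : Real.exp (T₀ / δ) ≤ N := by
      have h5 := Nat.le_ceil (Real.exp (T₀ / δ))
      have h6 : ((⌈Real.exp (T₀ / δ)⌉₊ : ℕ) : ℝ) ≤ N := by exact_mod_cast (by omega : _ ≤ N)
      linarith
    have h7 : T₀ / δ ≤ Real.log N := by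
      rw [← Real.log_exp (T₀ / δ)]
      exact Real.log_le_log (Real.exp_pos _) h4
    rw [div_le_iff₀ hδ] at h7
    linarith
  have h4 := hT₀ _ hTT (unif O) h1 h2 h3
  obtain ⟨e1, e2, -⟩ := aux_scale hδ hN1 (s := c * ε)
  obtain ⟨-, -, e3⟩ := aux_scale hδ hN1 (s := c * ε)
  rw [e1, e2] at h4
  rw [unif_real O (shell_closed _ _ _).measurableSet] at h4
  have hOne : (0 : ℝ) < O.card := by
    have : x ∈ O := (hO x).2 ⟨0, 0, by simp⟩
    exact_mod_cast Finset.card_pos.2 ⟨x, this⟩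
  rw [div_le_iff₀ hOne] at h4
  refine le_trans ?_ h4
  refine Nat.cast_le.2 ?_
  conv_rhs => rw [← Set.ncard_coe_finset]
  refine Set.ncard_le_ncard ?_ (Finset.finite_toSet _)
  rintro y ⟨hy, d, hd1, hd2, hd3⟩
  rw [Finset.mem_coe, Finset.mem_filter]
  refine ⟨hy, d, hd1, ?_, ?_, hd3⟩
  · rw [e3]
    refine hd2.trans (Real.rpow_le_rpow_of_exponent_le hNR.le ?_)
    gcongr
  · have hdN : d < N := by
      have h5 : (d : ℝ) < N := by
        refine lt_of_le_of_lt hd2 ?_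
        conv_rhs => rw [← Real.rpow_one (N : ℝ)]
        apply Real.rpow_lt_rpow_of_exponent_lt hNR
        have h6 : δ ^ 2 ≤ 1 := by nlinarith
        have h7 : c1 * ε ≤ 1 / 2 := by nlinarith
        have h8 : c1 * ε * δ ^ 2 ≤ 1 / 2 * 1 :=
          mul_le_mul h7 h6 (by positivity) (by norm_num)
        linarith
      exact_mod_cast h5
    have hne := orb_order hco hx hN1 ((hO y).1 hy) hd1 hdN
    apply Pool.Agent.R203.SC.tors_norm (by omega) _ hne
    obtain ⟨i, j, rfl⟩ := (hO y).1 hy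
    rw [smul_comm N d, smul_comm N, hx0, smul_zero, smul_zero]

/-- **Periodic orbits: points in short arcs.** -/
theorem perB {p q : ℕ} (hp : 2 ≤ p) (hq : 2 ≤ q) (hpq : Nat.Coprime p q) :
    ∃ K : ℝ, 0 < K ∧ ∀ δ ε : ℝ, 0 < δ → δ ≤ 1 → 0 < ε → ε ≤ 1 → ∃ N₀ : ℕ, ∀ N : ℕ, N₀ ≤ N →
      Nat.Coprime N (p * q) → ∀ x : UnitAddCircle, addOrderOf x = N →
      ∀ O : Finset UnitAddCircle, (∀ y, y ∈ O ↔ ∃ i j : ℕ, y = (p ^ i * q ^ j) • x) →
        ({y | y ∈ O ∧ K / (ε ^ 3 * δ ^ 4 * Real.log N ^ 2) * O.card <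
          ({z | z ∈ O ∧ dist z y < (N : ℝ) ^ (-δ)}.ncard : ℝ)}.ncard : ℝ) ≤ ε * O.card := by
  classical
  obtain ⟨c, K, hc, hc1, hK, h⟩ := ball hp hq hpq
  refine ⟨K, hK, fun δ ε hδ hδ1 hε hε1 => ?_⟩
  have hA : 1 ≤ 1 / δ := by rw [le_div_iff₀ hδ]; linarith
  -- apply with a smaller constant in the first variable, to have denominators below N
  obtain ⟨T₀, hT₀⟩ := h (1 / δ) ε hA hε hε1
  refine ⟨⌈Real.exp (T₀ / δ)⌉₊ + 2, fun N hN hco x hx O hO => ?_⟩
  have hN1 : 1 ≤ N := by omega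
  have hNR : (1 : ℝ) < N := by exact_mod_cast (by omega : 1 < N)
  have hx0 : N • x = 0 := by rw [← hx]; exact addOrderOf_nsmul_eq_zero x
  obtain ⟨h1, h2, h3⟩ := unif_orb hN1 hco hx0 hO
  have := h1
  have hTT : T₀ ≤ δ * Real.log N := by
    have h4 : Real.exp (T₀ / δ) ≤ N := by
      have h5 := Nat.le_ceil (Real.exp (T₀ / δ))
      have h6 : ((⌈Real.exp (T₀ / δ)⌉₊ : ℕ) : ℝ) ≤ N := by exact_mod_cast (by omega : _ ≤ N)
      linarith
    have h7 : T₀ / δ ≤ Real.log N := by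
      rw [← Real.log_exp (T₀ / δ)]
      exact Real.log_le_log (Real.exp_pos _) h4
    rw [div_le_iff₀ hδ] at h7
    linarith
  have h4 := hT₀ _ hTT (unif O) h1 h2 h3
  obtain ⟨e1, e2, e3⟩ := aux_scale hδ hN1 (s := c * ε)
  rw [unif_real O (heavy_meas _ _ _ _ _)] at h4
  have hOne : (0 : ℝ) < O.card := by
    have : x ∈ O := (hO x).2 ⟨0, 0, by simp⟩
    exact_mod_cast Finset.card_pos.2 ⟨x, this⟩
  rw [div_le_iff₀ hOne] at h4
  refine le_trans ?_ h4
  refine Nat.cast_le.2 ?_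
  conv_rhs => rw [← Set.ncard_coe_finset]
  refine Set.ncard_le_ncard ?_ (Finset.finite_toSet _)
  rintro y ⟨hy, hy2⟩
  rw [Finset.mem_coe, Finset.mem_filter]
  refine ⟨hy, ?_, ?_⟩
  · rw [e2, unif_real O Metric.isOpen_ball.measurableSet, lt_div_iff₀ hOne]
    have e5 : ({z | z ∈ O ∧ dist z y < (N : ℝ) ^ (-δ)}.ncard : ℝ) =
        ((O.filter (· ∈ Metric.ball y ((N : ℝ) ^ (-δ)))).card : ℝ) := by
      rw [← Set.ncard_coe_finset]
      congr 2
      ext z
      simp [Metric.mem_ball]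
    rw [e5] at hy2
    refine lt_of_le_of_lt (le_of_eq ?_) hy2
    congr 1
    have hlog : 0 < Real.log N := Real.log_pos hNR
    field_simp
  · intro d hd1 hd2
    rw [e3] at hd2
    rw [e1]
    have hdN : d < N := by
      have h5 : (d : ℝ) < N := by
        refine lt_of_le_of_lt hd2 ?_
        conv_rhs => rw [← Real.rpow_one (N : ℝ)]
        apply Real.rpow_lt_rpow_of_exponent_lt hNR
        have h6 : δ ^ 2 ≤ 1 := by nlinarith
        have h7 : c * ε ≤ 1 / 2 := by nlinarith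
        have h8 : c * ε * δ ^ 2 ≤ 1 / 2 * 1 := mul_le_mul h7 h6 (by positivity) (by norm_num)
        linarith
      exact_mod_cast h5
    have hne := orb_order hco hx hN1 ((hO y).1 hy) hd1 hdN
    apply Pool.Agent.R203.SC.tors_norm (by omega) _ hne
    obtain ⟨i, j, rfl⟩ := (hO y).1 hy
    rw [smul_comm N d, smul_comm N, hx0, smul_zero, smul_zero]

/-- **Measures which do not charge the Liouville numbers.** -/
theorem tight {p q : ℕ} (hp : 2 ≤ p) (hq : 2 ≤ q) (hpq : Nat.Coprime p q)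
    (μ : Measure UnitAddCircle) (hμ : IsProbabilityMeasure μ)
    (hμp : MeasurePreserving (fun x : UnitAddCircle => p • x) μ μ)
    (hμq : MeasurePreserving (fun x : UnitAddCircle => q • x) μ μ)
    (hD : ∀ᵐ x ∂μ, ∃ n : ℕ, ∀ d : ℕ, 1 ≤ d → 1 / ((d : ℝ) + 1) ^ n ≤ ‖d • x‖) {ε : ℝ}
    (hε : 0 < ε) : ∃ C T₀ : ℝ, ∀ T : ℝ, T₀ ≤ T →
      μ.real {x | C / T ^ 2 < μ.real (Metric.ball x (Real.exp (-T)))} ≤ ε := by
  obtain ⟨c, K, hc, hc1, hK, h⟩ := ball hp hq hpq
  set ε' : ℝ := min (ε / 2) 1 with hε'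
  have hε'0 : 0 < ε' := lt_min (by linarith) one_pos
  have hε'1 : ε' ≤ 1 := min_le_right _ _
  have hε'2 : ε' ≤ ε / 2 := min_le_left _ _
  set D : ℕ → Set UnitAddCircle := fun n => {x | ∀ d : ℕ, 1 ≤ d → 1 / ((d : ℝ) + 1) ^ n ≤ ‖d • x‖}
    with hDdef
  have hDm : ∀ n, MeasurableSet (D n) := by
    intro n
    have e : D n = ⋂ d : ℕ, ⋂ (_ : 1 ≤ d), {x : UnitAddCircle | 1 / ((d : ℝ) + 1) ^ n ≤ ‖d • x‖} := by
      ext x; simp [hDdef]
    rw [e]
    refine MeasurableSet.iInter fun d => MeasurableSet.iInter fun _ => ?_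
    have hc : Continuous fun x : UnitAddCircle => ‖d • x‖ := by fun_prop
    exact (isClosed_le continuous_const hc).measurableSet
  have hDmono : Monotone D := by
    intro a b hab x hx d hd
    refine le_trans ?_ (hx d hd)
    apply one_div_le_one_div_of_le (by positivity)
    apply pow_le_pow_right₀ _ hab
    have : (0 : ℝ) ≤ d := Nat.cast_nonneg _
    linarith
  have hlim : Filter.Tendsto (fun n => μ (D n)) Filter.atTop (nhds (μ (⋃ n, D n))) :=
    tendsto_measure_iUnion_atTop hDmono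
  have hone : μ (⋃ n, D n) = 1 := by
    refine (mem_ae_iff_prob_eq_one (MeasurableSet.iUnion hDm)).1 ?_
    filter_upwards [hD] with x hx
    exact Set.mem_iUnion.2 hx
  rw [hone] at hlim
  have hlim' : Filter.Tendsto (fun n => μ.real (D n)) Filter.atTop (nhds 1) := by
    have := (ENNReal.tendsto_toReal ENNReal.one_ne_top).comp hlim
    rw [ENNReal.toReal_one] at this
    exact this
  obtain ⟨n, hn⟩ := (hlim'.eventually (lt_mem_nhds (by linarith : 1 - ε / 2 < 1))).exists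
  have hDc : μ.real (D n)ᶜ ≤ ε / 2 := by
    rw [probReal_compl_eq_one_sub (hDm n)]
    linarith
  obtain ⟨T₀, hT₀⟩ := h (n + 1) ε' (by
    have : (0 : ℝ) ≤ n := Nat.cast_nonneg _
    linarith) hε'0 hε'1
  refine ⟨K * ((n : ℝ) + 1) ^ 2 / ε' ^ 3, max T₀ (n + 1), fun T hT => ?_⟩
  have hT1 : T₀ ≤ T := (le_max_left _ _).trans hT
  have hT2 : (n : ℝ) + 1 ≤ T := (le_max_right _ _).trans hT
  have hn0 : (0 : ℝ) ≤ n := Nat.cast_nonneg _
  have hT0 : 0 < T := by linarith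
  have h1 := hT₀ T hT1 μ hμ hμp hμq
  set H := heavy μ (K * ((n : ℝ) + 1) ^ 2 / (ε' ^ 3 * T ^ 2)) (c * ε' / ((n : ℝ) + 1) * T)
    ((n : ℝ) + 1) T with hH
  have hsub : {x | K * ((n : ℝ) + 1) ^ 2 / ε' ^ 3 / T ^ 2 < μ.real (Metric.ball x (Real.exp (-T)))} ⊆
      H ∪ (D n)ᶜ := by
    intro x hx
    by_cases hxD : x ∈ D n
    · left
      refine ⟨?_, fun d hd1 hd2 => ?_⟩
      · rw [← div_div]; exact hx
      · refine le_trans ?_ (hxD d hd1)
        have hd0 : (0 : ℝ) < (d : ℝ) + 1 := by positivity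
        have h2 : (d : ℝ) + 1 ≤ Real.exp (c * ε' / ((n : ℝ) + 1) * T + Real.log 2) := by
          rw [Real.exp_add, Real.exp_log (by norm_num)]
          have : (1 : ℝ) ≤ d := by exact_mod_cast hd1
          linarith
        have h3 : ((d : ℝ) + 1) ^ n ≤ Real.exp (((n : ℝ) + 1) * T) := by
          calc ((d : ℝ) + 1) ^ n ≤ (Real.exp (c * ε' / ((n : ℝ) + 1) * T + Real.log 2)) ^ n :=
                pow_le_pow_left₀ hd0.le h2 n
            _ = Real.exp (n * (c * ε' / ((n : ℝ) + 1) * T + Real.log 2)) := by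
                rw [← Real.exp_nat_mul]
            _ ≤ Real.exp (((n : ℝ) + 1) * T) := by
                apply Real.exp_le_exp.2
                have h4 : c * ε' / ((n : ℝ) + 1) ≤ 1 := by
                  rw [div_le_one (by linarith)]
                  nlinarith
                have h5 : c * ε' / ((n : ℝ) + 1) * T ≤ 1 * T :=
                  mul_le_mul_of_nonneg_right h4 hT0.le
                have h6 : Real.log 2 ≤ 1 := by
                  have := Real.log_two_lt_d9; linarith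
                have h7 : (n : ℝ) * (c * ε' / ((n : ℝ) + 1) * T + Real.log 2) ≤ n * (T + 1) :=
                  mul_le_mul_of_nonneg_left (by linarith) hn0
                linarith
        rw [Real.exp_neg, ← one_div]
        exact one_div_le_one_div_of_le (by positivity) h3
    · right; exact hxD
  calc μ.real _ ≤ μ.real (H ∪ (D n)ᶜ) := measureReal_mono hsub
    _ ≤ μ.real H + μ.real (D n)ᶜ := measureReal_union_le _ _
    _ ≤ ε' + ε / 2 := add_le_add h1 hDc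
    _ ≤ ε := by linarith

end Pool.Agent.N254.UD
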